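import Pool.Agent.H359.IGR.Loop
import Pool.Agent.H359.IGR.Squier
import Pool.Graph.R_pool_sql_team_seeded_620a6dc7.helper213_IG_.RF1
import Mathlib.Algebra.Free
import Mathlib.Algebra.Group.WithOne.Basic

set_option autoImplicit false

/-!
# `IG(E(P_n))` admits no finite complete rewriting system for `n ≥ 7`
-/

namespace Pool.Agent.Results.MP_e3ace9_al.NoFiniteCompleteRewriting

/-! ### The semigroup `IG(E(P_n))` -/

/-- A relation on the `2n` points `[n] ∪ [n]'`: the point `(false, i)` is `i` (upper row) and
`(true, i)` is `i'` (lower row). -/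
abbrev Rl (n : ℕ) : Type := Bool × Fin n → Bool × Fin n → Prop

/-- The points of `α` placed in rows `0` and `1` of the three row picture. -/
def upperPt {n : ℕ} (p : Bool × Fin n) : Fin 3 × Fin n := (if p.1 = true then 1 else 0, p.2)

/-- The points of `β` placed in rows `1` and `2` of the three row picture. -/
def lowerPt {n : ℕ} (p : Bool × Fin n) : Fin 3 × Fin n := (if p.1 = true then 2 else 1, p.2)

/-- The points of the product placed in the outer rows `0` and `2`. -/
def outerPt {n : ℕ} (p : Bool × Fin n) : Fin 3 × Fin n := (if p.1 = true then 2 else 0, p.2)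

/-- Adjacency in the combined three row graph of `α` (on rows `0,1`) and `β` (on rows `1,2`). -/
def Adj {n : ℕ} (α β : Rl n) (x y : Fin 3 × Fin n) : Prop :=
  (∃ p q, α p q ∧ x = upperPt p ∧ y = upperPt q) ∨ (∃ p q, β p q ∧ x = lowerPt p ∧ y = lowerPt q)

/-- The product in the partition monoid: two outer points are related when they are connected in
the combined graph. -/
def pmul {n : ℕ} (α β : Rl n) : Rl n := fun p q => Relation.EqvGen (Adj α β) (outerPt p) (outerPt q)

/-- The idempotents of the partition monoid `P_n`: the set partitions (equivalence relations) `α` of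
`[n] ∪ [n]'` with `α α = α`. -/
def EP (n : ℕ) : Type := {α : Rl n // Equivalence α ∧ pmul α α = α}

/-- `(e, f)` is a basic pair: `ef` or `fe` is one of `e`, `f`. -/
def BasicPair {n : ℕ} (e f : EP n) : Prop :=
  pmul e.1 f.1 = e.1 ∨ pmul e.1 f.1 = f.1 ∨ pmul f.1 e.1 = e.1 ∨ pmul f.1 e.1 = f.1

/-- The defining relations `x_e x_f = x_{ef}` of `IG(E(P_n))`, for basic pairs `(e, f)`. -/
inductive DefRel (n : ℕ) : FreeSemigroup (EP n) → FreeSemigroup (EP n) → Prop
  | mk (e f g : EP n) (hb : BasicPair e f) (hg : pmul e.1 f.1 = g.1) :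
      DefRel n (FreeSemigroup.of e * FreeSemigroup.of f) (FreeSemigroup.of g)

/-- The free idempotent-generated semigroup `IG(E(P_n))`. -/
def IGP (n : ℕ) : Type := (conGen (DefRel n)).Quotient

instance (n : ℕ) : Semigroup (IGP n) := inferInstanceAs (Semigroup (conGen (DefRel n)).Quotient)

/-! ### Finite complete rewriting systems -/

/-- The list of letters of a word in `A⁺` (an element of the free semigroup on `A`). -/
def word {A : Type} (w : FreeSemigroup A) : List A := w.head :: w.tail

/-- One rewriting step `u → v` of the system `R` of rules on `A⁺`: `u = p l q` and `v = p r q` for a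
rule `l → r` of `R` and (possibly empty) words `p`, `q`. -/
def Step {A : Type} (R : Set (FreeSemigroup A × FreeSemigroup A)) (u v : FreeSemigroup A) : Prop :=
  ∃ l r, (l, r) ∈ R ∧ ∃ p q : List A, word u = p ++ word l ++ q ∧ word v = p ++ word r ++ q

/-- The system is terminating: there is no infinite sequence of rewriting steps. -/
def Terminating {A : Type} (R : Set (FreeSemigroup A × FreeSemigroup A)) : Prop :=
  ¬ ∃ f : ℕ → FreeSemigroup A, ∀ i, Step R (f i) (f (i + 1))

/-- The system is confluent: words with a common ancestor have a common descendant. -/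
def Confluent {A : Type} (R : Set (FreeSemigroup A × FreeSemigroup A)) : Prop :=
  ∀ u v w : FreeSemigroup A, Relation.ReflTransGen (Step R) u v → Relation.ReflTransGen (Step R) u w →
    ∃ z, Relation.ReflTransGen (Step R) v z ∧ Relation.ReflTransGen (Step R) w z

/-- The semigroup `⟨A | l = r for the rules l → r of R⟩`: the quotient of `A⁺` by the congruence
generated by `R`. -/
abbrev Presented {A : Type} (R : Set (FreeSemigroup A × FreeSemigroup A)) : Type :=
  (conGen (fun u v => (u, v) ∈ R)).Quotient

/-- The semigroup `T` admits a finite complete rewriting system: it is presented by a finite,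
terminating and confluent system of rules over a finite alphabet. -/
def AdmitsFCRS (T : Type) [Semigroup T] : Prop :=
  ∃ (A : Type) (_ : Finite A) (R : Set (FreeSemigroup A × FreeSemigroup A)),
    R.Finite ∧ Terminating R ∧ Confluent R ∧ Nonempty (T ≃* Presented R)

/-- Sanity check (not used below): a free semigroup on a finite alphabet admits a finite complete
rewriting system, the one without rules. -/
theorem free_admits (A : Type) [Finite A] : AdmitsFCRS (FreeSemigroup A) := by
  refine ⟨A, inferInstance, ∅, Set.finite_empty, ?_, ?_, ?_⟩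
  · rintro ⟨f, hf⟩
    obtain ⟨l, r, h, -⟩ := hf 0
    exact h
  · intro u v w h1 h2
    have h3 : ∀ x, Relation.ReflTransGen (Step (∅ : Set (FreeSemigroup A × FreeSemigroup A))) u x → x = u := by
      intro x hx
      rcases hx.cases_head with h | ⟨y, ⟨l, r, h, -⟩, -⟩
      · exact h.symm
      · exact absurd h (Set.notMem_empty _)
    rw [h3 v h1, h3 w h2]
    exact ⟨u, Relation.ReflTransGen.refl, Relation.ReflTransGen.refl⟩
  · refine ⟨MulEquiv.ofBijective (⟨fun w => Quotient.mk (conGen _).toSetoid w, fun _ _ => rfl⟩ :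
      FreeSemigroup A →ₙ* Presented (∅ : Set (FreeSemigroup A × FreeSemigroup A))) ⟨?_, ?_⟩⟩
    · intro u v h
      have h1 : conGen (fun u v => (u, v) ∈ (∅ : Set (FreeSemigroup A × FreeSemigroup A))) u v :=
        Quotient.exact h
      have h2 : conGen (fun u v => (u, v) ∈ (∅ : Set (FreeSemigroup A × FreeSemigroup A))) ≤ ⊥ := by
        rw [Con.conGen_le]
        intro x y hxy
        exact absurd hxy (Set.notMem_empty _)
      exact h2 h1
    · exact Quotient.exists_rep

section Bridge

open Pool.Agent.H213

variable {n : ℕ}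

theorem pmul_eq (α β : Rl n) : pmul α β = PM.mulr α β := by
  have h : Adj α β = PM.gen α β := by
    funext x y
    rfl
  funext p q
  unfold pmul PM.mulr
  rw [h]
  rfl

/-- the idempotent of `PM n` given by an element of `EP n` -/
def toId (e : EP n) : Idem (PM n) := ⟨⟨e.1, e.2.1⟩, PM.ext (by
  rw [PM.mul_r]
  exact (pmul_eq _ _).symm.trans e.2.2)⟩

theorem toId_mul_r (e f : EP n) : ((toId e : PM n) * (toId f : PM n)).r = pmul e.1 f.1 := by
  rw [PM.mul_r, pmul_eq]
  rfl

/-- the inverse -/
def ofId (e : Idem (PM n)) : EP n := ⟨(e : PM n).r, (e : PM n).eqv, by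
  rw [pmul_eq, ← PM.mul_r]
  exact congrArg PM.r e.2⟩

theorem toId_ofId (e : Idem (PM n)) : toId (ofId e) = e := rfl

theorem mul_toId_iff (e f g : EP n) : (toId e : PM n) * (toId f : PM n) = toId g ↔ pmul e.1 f.1 = g.1 := by
  constructor
  · intro h
    have := congrArg PM.r h
    rwa [toId_mul_r] at this
  · intro h
    apply PM.ext
    rw [toId_mul_r]
    exact h

theorem basic_iff (e f : EP n) : Basic (toId e : PM n) (toId f : PM n) ↔ BasicPair e f := by
  unfold Basic BasicPair
  rw [mul_toId_iff, mul_toId_iff, mul_toId_iff, mul_toId_iff]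

/-- the canonical map from words to the monoid `IG (PM n)` -/
def wmap : FreeSemigroup (EP n) →ₙ* IG (PM n) := FreeSemigroup.lift (fun e => io (toId e))

theorem conGen_le_ker : conGen (DefRel n) ≤ Con.ker (wmap (n := n)) := by
  rw [Con.conGen_le]
  intro x y h
  cases h with
  | mk e f g hb hg =>
    rw [Con.ker_rel]
    rw [map_mul]
    unfold wmap
    rw [FreeSemigroup.lift_of, FreeSemigroup.lift_of, FreeSemigroup.lift_of]
    exact io_mul ((basic_iff e f).2 hb) ((mul_toId_iff e f g).2 hg)

/-- the canonical map `IG(E(P_n)) → IG (PM n)` -/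
def fwd : IGP n →ₙ* IG (PM n) where
  toFun := fun x => Quotient.lift (s := (conGen (DefRel n)).toSetoid) (fun w => wmap w)
    (fun a b h => conGen_le_ker h) x
  map_mul' := by
    intro x y
    induction x using Quotient.inductionOn
    induction y using Quotient.inductionOn
    exact map_mul wmap _ _

/-- class of a word -/
def cl (w : FreeSemigroup (EP n)) : IGP n := Quotient.mk (conGen (DefRel n)).toSetoid w

theorem cl_surj (x : IGP n) : ∃ w, cl w = x := Quotient.exists_rep x

theorem fwd_cl (w : FreeSemigroup (EP n)) : fwd (cl w) = wmap w := rfl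

/-- generator of `IGP n` -/
def gn (e : EP n) : IGP n := cl (FreeSemigroup.of e)

theorem gn_mul (e f g : EP n) (hb : BasicPair e f) (hg : pmul e.1 f.1 = g.1) : gn e * gn f = gn g :=
  Quotient.sound (s := (conGen (DefRel n)).toSetoid) (ConGen.Rel.of _ _ (DefRel.mk e f g hb hg))

/-- the map back -/
noncomputable def bwd : IG (PM n) →* WithOne (IGP n) :=
  IG.lift (fun e => ((gn (ofId e) : IGP n) : WithOne (IGP n))) (by
    intro e f g hb hg
    rw [← WithOne.coe_mul]
    congr 1
    exact gn_mul _ _ _ ((basic_iff _ _).1 hb) ((mul_toId_iff _ _ _).1 hg))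

theorem bwd_wmap (w : FreeSemigroup (EP n)) : bwd (wmap w) = ((cl w : IGP n) : WithOne (IGP n)) := by
  induction w using FreeSemigroup.recOnMul with
  | ih1 e =>
    unfold wmap bwd
    rw [FreeSemigroup.lift_of, IG.lift_io]
    rfl
  | ih2 e w h1 h2 =>
    rw [map_mul, map_mul, h1, h2]
    rfl

theorem fwd_injective : Function.Injective (fwd (n := n)) := by
  intro x y h
  obtain ⟨a, rfl⟩ := cl_surj x
  obtain ⟨b, rfl⟩ := cl_surj y
  rw [fwd_cl, fwd_cl] at h
  have := congrArg bwd h
  rw [bwd_wmap, bwd_wmap] at this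
  exact WithOne.coe_injective this

theorem wmap_eq (w : FreeSemigroup (EP n)) : ∃ v : List (Idem (PM n)), wmap w = mkw v := by
  induction w using FreeSemigroup.recOnMul with
  | ih1 e =>
    refine ⟨[toId e], ?_⟩
    unfold wmap
    rw [FreeSemigroup.lift_of]
    rfl
  | ih2 e w h1 h2 =>
    obtain ⟨v1, e1⟩ := h1
    obtain ⟨v2, e2⟩ := h2
    refine ⟨v1 ++ v2, ?_⟩
    rw [map_mul, e1, e2, mkw_append]

end Bridge

section Words

open Pool.Agent.H359.IGR Relation

variable {A : Type}

theorem word_of (a : A) : word (FreeSemigroup.of a) = [a] := rfl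

theorem word_mul (u v : FreeSemigroup A) : word (u * v) = word u ++ word v := by
  cases u; cases v; rfl

theorem word_ne (u : FreeSemigroup A) : word u ≠ [] := by simp [word]

theorem word_inj {u v : FreeSemigroup A} (h : word u = word v) : u = v := by
  cases u; cases v
  simp only [word, List.cons.injEq] at h
  rw [h.1, h.2]

theorem exists_word {l : List A} (h : l ≠ []) : ∃ u, word u = l := by
  cases l with
  | nil => exact absurd rfl h
  | cons a l => exact ⟨⟨a, l⟩, rfl⟩

/-- the rules as pairs of lists -/
def RL (R : Set (FreeSemigroup A × FreeSemigroup A)) (l r : List A) : Prop :=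
  ∃ x y, (x, y) ∈ R ∧ word x = l ∧ word y = r

variable {R : Set (FreeSemigroup A × FreeSemigroup A)}

theorem step_iff (u v : FreeSemigroup A) : Stp (RL R) (word u) (word v) ↔ Step R u v := by
  constructor
  · rintro ⟨p, q, _, _, ⟨x, y, h, rfl, rfl⟩, h1, h2⟩
    exact ⟨x, y, h, p, q, h1, h2⟩
  · rintro ⟨x, y, h, p, q, h1, h2⟩
    exact ⟨p, q, _, _, ⟨x, y, h, rfl, rfl⟩, h1, h2⟩

theorem stp_ne {U V : List A} (h : Stp (RL R) U V) : U ≠ [] ∧ V ≠ [] := by
  obtain ⟨p, q, _, _, ⟨x, y, h, rfl, rfl⟩, rfl, rfl⟩ := h
  constructor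
  · simp [word]
  · simp [word]

theorem red_word {u v : FreeSemigroup A} (h : ReflTransGen (Step R) u v) :
    ReflTransGen (Stp (RL R)) (word u) (word v) := by
  induction h with
  | refl => exact ReflTransGen.refl
  | tail _ h2 ih => exact ih.tail ((step_iff _ _).2 h2)

theorem red_lift {u : FreeSemigroup A} {V : List A} (h : ReflTransGen (Stp (RL R)) (word u) V) :
    ∃ v, word v = V ∧ ReflTransGen (Step R) u v := by
  induction h with
  | refl => exact ⟨u, rfl, ReflTransGen.refl⟩
  | tail _ h2 ih =>
    obtain ⟨v, rfl, hv⟩ := ih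
    obtain ⟨w, rfl⟩ := exists_word (stp_ne h2).2
    exact ⟨w, rfl, hv.tail ((step_iff _ _).1 h2)⟩

theorem conf_lists (h : Confluent R) (u v w : List A) (h1 : ReflTransGen (Stp (RL R)) u v)
    (h2 : ReflTransGen (Stp (RL R)) u w) :
    ∃ z, ReflTransGen (Stp (RL R)) v z ∧ ReflTransGen (Stp (RL R)) w z := by
  by_cases hu : u = []
  · subst hu
    have h3 : ∀ x : List A, ReflTransGen (Stp (RL R)) [] x → x = [] := by
      intro x hx
      rcases hx.cases_head with h | ⟨y, hy, -⟩
      · exact h.symm
      · exact absurd rfl (stp_ne hy).1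
    rw [h3 v h1, h3 w h2]
    exact ⟨[], ReflTransGen.refl, ReflTransGen.refl⟩
  · obtain ⟨u, rfl⟩ := exists_word hu
    obtain ⟨v, rfl, hv⟩ := red_lift h1
    obtain ⟨w, rfl, hw⟩ := red_lift h2
    obtain ⟨z, hz1, hz2⟩ := h u v w hv hw
    exact ⟨word z, red_word hz1, red_word hz2⟩

theorem wf_lists (h : Terminating R) : WellFounded (fun u v : List A => Stp (RL R) v u) := by
  rw [wellFounded_iff_isEmpty_descending_chain]
  constructor
  rintro ⟨f, hf⟩
  have h1 : ∀ i, ∃ u, word u = f i := fun i => exists_word (stp_ne (hf i)).1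
  choose g hg using h1
  apply h
  refine ⟨g, fun i => ?_⟩
  rw [← step_iff, hg, hg]
  exact hf i

/-- the congruence of the rewriting system -/
def rwCon (R : Set (FreeSemigroup A × FreeSemigroup A)) : Con (FreeSemigroup A) where
  r u v := EqvGen (Stp (RL R)) (word u) (word v)
  iseqv := ⟨fun _ => EqvGen.refl _, fun h => EqvGen.symm _ _ h, fun h1 h2 => EqvGen.trans _ _ _ h1 h2⟩
  mul' := by
    intro a b c d h1 h2
    have key : ∀ (p q : List A) {u v : List A}, EqvGen (Stp (RL R)) u v →
        EqvGen (Stp (RL R)) (p ++ u ++ q) (p ++ v ++ q) := by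
      intro p q u v h
      induction h with
      | rel u v h => exact EqvGen.rel _ _ (h.ctx p q)
      | refl u => exact EqvGen.refl _
      | symm u v _ ih => exact EqvGen.symm _ _ ih
      | trans u v w _ _ i1 i2 => exact EqvGen.trans _ _ _ i1 i2
    show EqvGen (Stp (RL R)) (word (a * c)) (word (b * d))
    rw [word_mul, word_mul]
    have k1 := key [] (word c) h1
    have k2 := key (word b) [] h2
    simp only [List.nil_append, List.append_nil] at k1 k2
    exact EqvGen.trans _ _ _ k1 k2

theorem conGen_rw {u v : FreeSemigroup A} (h : conGen (fun u v => (u, v) ∈ R) u v) :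
    EqvGen (Stp (RL R)) (word u) (word v) := by
  have h1 : conGen (fun u v => (u, v) ∈ R) ≤ rwCon R := by
    rw [Con.conGen_le]
    intro x y hxy
    exact EqvGen.rel _ _ ⟨[], [], _, _, ⟨x, y, hxy, rfl, rfl⟩, by simp, by simp⟩
  exact h1 h

end Words

open Pool.Agent.H213 Pool.Agent.H359.IGR Relation in
/-- **Theorem** (negative answer to Q1). For every `n ≥ 7` the free idempotent-generated semigroup
`IG(E(P_n))` over the biordered set of idempotents of the partition monoid `P_n` does not admit a
finite complete rewriting system. -/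
theorem result (n : ℕ) (hn : 7 ≤ n) : ¬ AdmitsFCRS (IGP n) := by
  classical
  have : Fact (7 ≤ n) := ⟨hn⟩
  rintro ⟨A, hA, R, hfin, hterm, hconf, ⟨φ⟩⟩
  -- the canonical maps
  let mk : FreeSemigroup A → Presented R := fun w => Quotient.mk (conGen (fun u v => (u, v) ∈ R)).toSetoid w
  have mk_mul : ∀ u v, mk (u * v) = mk u * mk v := fun _ _ => rfl
  let g : FreeSemigroup A → IG (PM n) := fun w => fwd (φ.symm (mk w))
  have g_mul : ∀ u v, g (u * v) = g u * g v := by
    intro u v
    show fwd (φ.symm (mk (u * v))) = _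
    rw [mk_mul, map_mul, map_mul]
  have g_eq : ∀ u v, g u = g v ↔ conGen (fun u v => (u, v) ∈ R) u v := by
    intro u v
    constructor
    · intro h
      have h1 : mk u = mk v := φ.symm.injective (fwd_injective h)
      exact Quotient.exact h1
    · intro h
      have h1 : mk u = mk v := Quotient.sound h
      show fwd (φ.symm (mk u)) = fwd (φ.symm (mk v))
      rw [h1]
  -- translation of letters to words in idempotents
  have htil : ∀ a : A, ∃ t : List (Idem (PM n)), mkw t = g (FreeSemigroup.of a) := by
    intro a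
    obtain ⟨w, hw⟩ := cl_surj (φ.symm (mk (FreeSemigroup.of a)))
    obtain ⟨t, ht⟩ := wmap_eq w
    refine ⟨t, ?_⟩
    show mkw t = fwd (φ.symm (mk (FreeSemigroup.of a)))
    rw [← hw, fwd_cl, ht]
  choose til htil using htil
  have gw : ∀ w, g w = mkw ((word w).flatMap til) := by
    intro w
    induction w using FreeSemigroup.recOnMul with
    | ih1 a => rw [word_of, ← htil]; simp
    | ih2 a w h1 h2 => rw [g_mul, h1, h2, word_mul, List.flatMap_append, mkw_append]
  have hhat : ∀ e : Idem (PM n), ∃ w : FreeSemigroup A, g w = mkw [e] := by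
    intro e
    obtain ⟨w, hw⟩ := Quotient.exists_rep (φ (gn (ofId e)))
    refine ⟨w, ?_⟩
    have h1 : mk w = φ (gn (ofId e)) := hw
    show fwd (φ.symm (mk w)) = _
    rw [h1, MulEquiv.symm_apply_apply]
    unfold gn
    rw [fwd_cl]
    unfold wmap
    rw [FreeSemigroup.lift_of, toId_ofId]
    rfl
  choose hat hhat using hhat
  -- bounds
  obtain ⟨N, hN⟩ := (Set.finite_range (fun a : A => (til a).length)).bddAbove
  have hN' : ∀ a, (til a).length ≤ N := fun a => hN ⟨a, rfl⟩
  obtain ⟨L, hL⟩ := (hfin.image (fun ρ => (word ρ.1).length)).bddAbove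
  have hL' : ∀ l r, RL R l r → l.length ≤ L := by
    rintro _ _ ⟨x, y, h, rfl, rfl⟩
    exact hL ⟨(x, y), h, rfl⟩
  have hlen : ∀ t : List A, (t.flatMap til).length ≤ t.length * N := by
    intro t
    induction t with
    | nil => simp
    | cons a t ih =>
      rw [List.flatMap_cons, List.length_append, List.length_cons, Nat.succ_mul]
      have := hN' a
      omega
  obtain ⟨Ψ, hΨ⟩ := exists_potential (M := ZMod 2) (π := (mkw : List (Idem (PM n)) → IG (PM n)))
    (D := Df (L * N + 3)) (Sm := Sm (L * N + 3)) (R := RL R)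
    (conf_lists hconf) (wf_lists hterm) mkw_append til (fun e => word (hat e))
    (fun e => by rw [← gw, hhat])
    (by
      rintro _ _ ⟨x, y, h, rfl, rfl⟩
      rw [← gw, ← gw, g_eq]
      exact ConGen.Rel.of _ _ h)
    (by
      intro u v hu hv h
      obtain ⟨u, rfl⟩ := exists_word hu
      obtain ⟨v, rfl⟩ := exists_word hv
      rw [← gw, ← gw, g_eq] at h
      exact conGen_rw h)
    (fun e => word_ne _) (funE _)
    (fun e => ⟨[e], rfl, by simp; omega⟩)
    (by
      intro l r l' r' t h1 h2 h3
      refine ⟨_, rfl, ?_⟩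
      have h4 := hL' _ _ h1
      have h5 := hL' _ _ h2
      have h6 := hlen t
      have h7 : t.length * N ≤ (2 * L) * N := Nat.mul_le_mul_right _ (by omega)
      have h8 : 2 * L * N = 2 * (L * N) := by ring
      omega)
  exact no_pot (k := L * N + 3) (by omega) Ψ hΨ

end Pool.Agent.Results.MP_e3ace9_al.NoFiniteCompleteRewriting
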